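import Pool.Agent.Helper56Gr.N1

/-! Piece N of project GR (helper69). -/

set_option autoImplicit false

namespace Pool.Agent.Helper56Gr

open Module Pool.Agent.Helper69K1 Pool.Agent.Helper69K1.Gr

/-- extension of centralising elements -/
theorem ext_q {n : Type} [Fintype n] [DecidableEq n] (hR : S_R)
    (A : Subalgebra ℚ (Matrix n n ℚ)) (e : Matrix n n ℚ) (he : e ∈ A) (hee : e * e = e)
    (heA : ∀ a ∈ A, e * a = a * e) (S : Type) [Ring S] [Algebra ℚ S] (τ : S →ₗ[ℚ] ℚ)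
    (q : A →ₐ[ℚ] S) (hq : Function.Surjective q) (hτ : TrAlg τ)
    (htr : ∀ a : A, τ (q a) = (e * (a : Matrix n n ℚ)).trace) (hqe : q ⟨e, he⟩ = 1)
    (w z : Matrix n n ℚ) (hw : w ∈ A) (hz : z ∈ A)
    (hrk : ∀ t : ℕ, t ≤ 2 * Fintype.card n ^ 2 + 3 →
      rkA A.toSubmodule (w + (t : ℚ) • z) ≤ rkA A.toSubmodule w) :
    Ext (q ⟨w, hw⟩) (q ⟨z, hz⟩) := by
  intro y hy
  obtain ⟨y', rfl⟩ := hq y
  have hfrm : ∀ (u : Matrix n n ℚ) (a b : A.toSubmodule), frm A.toSubmodule u a b =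
      (u * ((a : Matrix n n ℚ) * b - (b : Matrix n n ℚ) * a)).trace := fun u a b => rfl
  -- the trace of a product with the form
  have key : ∀ (u a b : A), τ ((q u * q a - q a * q u) * q b) =
      ((u : Matrix n n ℚ) * ((a : Matrix n n ℚ) * (e * (b : Matrix n n ℚ)) -
        (e * (b : Matrix n n ℚ)) * a)).trace := by
    intro u a b
    rw [← map_mul, ← map_mul, ← map_sub, ← map_mul, htr]
    change (e * (((u : Matrix n n ℚ) * a - a * u) * b)).trace = _
    have e1 : e * (((u : Matrix n n ℚ) * a - a * u) * b) =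
        (u : Matrix n n ℚ) * a * (e * b) - (a : Matrix n n ℚ) * (u * (e * b)) := by
      have h1 := heA _ (A.mul_mem u.2 a.2)
      have h2 := heA _ (A.mul_mem a.2 u.2)
      rw [sub_mul, mul_sub]
      congr 1
      · rw [← mul_assoc e, h1, mul_assoc]
      · rw [← mul_assoc e, h2, mul_assoc, mul_assoc]
    rw [e1, Matrix.trace_sub, mul_sub, Matrix.trace_sub, Matrix.trace_mul_comm (a : Matrix n n ℚ)]
    simp only [mul_assoc]
  have hP : frm A.toSubmodule w (⟨e * y', A.mul_mem he y'.2⟩ : A.toSubmodule) = 0 := by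
    refine LinearMap.ext fun b => ?_
    rw [hfrm, LinearMap.zero_apply]
    have h1 := key ⟨w, hw⟩ y' ⟨b, b.2⟩
    rw [hy, sub_self, zero_mul, map_zero] at h1
    have h2 := heA _ b.2
    have h3 : (w * ((y' : Matrix n n ℚ) * (e * (b : Matrix n n ℚ)) -
        (e * (b : Matrix n n ℚ)) * y')) =
        w * (e * (y' : Matrix n n ℚ) * b - b * (e * y')) := by
      have h4 := heA _ y'.2
      congr 2
      · rw [← mul_assoc, ← h4]
      · rw [h2, mul_assoc]
    change 0 = (w * ((y' : Matrix n n ℚ) * (e * (b : Matrix n n ℚ)) -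
        (e * (b : Matrix n n ℚ)) * y')).trace at h1
    rw [h3] at h1
    exact h1.symm
  have hlin : ∀ t : ℚ, frm A.toSubmodule w + t • frm A.toSubmodule z =
      frm A.toSubmodule (w + t • z) := by
    intro t
    refine LinearMap.ext fun a => LinearMap.ext fun b => ?_
    rw [LinearMap.add_apply, LinearMap.add_apply, LinearMap.smul_apply, LinearMap.smul_apply,
      hfrm, hfrm, hfrm, add_mul, Matrix.trace_add, smul_mul_assoc, Matrix.trace_smul]
  have hfin : finrank ℚ A.toSubmodule ≤ Fintype.card n ^ 2 := by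
    refine (Submodule.finrank_le _).trans (le_of_eq ?_)
    rw [Module.finrank_matrix, finrank_self, mul_one, pow_two]
  obtain ⟨v, hv0, hv1, d, hv2⟩ := hR A.toSubmodule (Module.Dual ℚ A.toSubmodule)
    (frm A.toSubmodule w) (frm A.toSubmodule z) (by
      intro t ht
      rw [hlin]
      exact hrk t (by omega)) ⟨e * y', A.mul_mem he y'.2⟩ hP
  refine ⟨fun j => q ⟨v j, (v j).2⟩, ?_, ?_, d, ?_⟩
  · change q ⟨v 0, (v 0).2⟩ = q y'
    have h1 : (⟨v 0, (v 0).2⟩ : A) = ⟨e, he⟩ * y' := Subtype.ext (by rw [hv0]; rfl)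
    rw [h1, map_mul, hqe, one_mul]
  · intro j
    refine hτ.nondeg _ fun b => ?_
    obtain ⟨b', rfl⟩ := hq b
    rw [add_mul, map_add, key, key]
    have h1 := hv1 j
    have h2 := congrArg (fun φ => φ (⟨e * b', A.mul_mem he b'.2⟩ : A.toSubmodule)) h1
    exact h2
  · intro j hj
    change q ⟨v j, (v j).2⟩ = 0
    have h1 : (⟨v j, (v j).2⟩ : A) = 0 := Subtype.ext (by rw [hv2 j hj])
    rw [h1, map_zero]

theorem t_N (hC : S_COM) (hA' : S_A) (hR : S_R) (hB : S_B) (hM : S_M) (hGR : S_GR) : S_N := by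
  intro n _ _ κ P hP1 hP2 h hh hcom e he hee heh heP m z hz hzs w hw hnil hrk
  obtain ⟨A, hA⟩ : ∃ A : Subalgebra ℚ (Matrix n n ℚ),
    A = Algebra.adjoin ℚ (h : Set (Matrix n n ℚ)) := ⟨_, rfl⟩
  rw [← hA] at he hrk
  have hhA : ∀ a ∈ h, a ∈ A := fun a ha => by rw [hA]; exact Algebra.subset_adjoin ha
  have heA : ∀ a ∈ A, e * a = a * e := by
    intro a ha
    rw [hA] at ha
    induction ha using Algebra.adjoin_induction with
    | mem x hx => exact heh x hx
    | algebraMap r => exact (Algebra.commutes r e).symm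
    | add x y _ _ hx hy => rw [mul_add, add_mul, hx, hy]
    | mul x y _ _ hx hy => rw [← mul_assoc, hx, mul_assoc, hy, mul_assoc]
  obtain ⟨S, iR, iA, iF, τ, q, hq, hτ, htr⟩ := hM n A e he hee heA
  have hqe : q ⟨e, he⟩ = 1 := by
    refine sub_eq_zero.1 (hτ.nondeg _ fun b => ?_)
    obtain ⟨b', rfl⟩ := hq b
    rw [sub_mul, one_mul, ← map_mul, map_sub, htr, htr]
    change (e * (e * (b' : Matrix n n ℚ))).trace - _ = 0
    rw [← mul_assoc, hee, sub_self]
  obtain ⟨hAs, hAsdef⟩ : ∃ hAs : Submodule ℚ A, hAs = h.comap A.val.toLinearMap := ⟨_, rfl⟩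
  obtain ⟨hb, hbdef⟩ : ∃ hb : Submodule ℚ S, hb = hAs.map q.toLinearMap := ⟨_, rfl⟩
  have gr : Nonempty (Grad κ hb) := by
    rw [hbdef, hAsdef]
    exact hGR n κ P hP1 hP2 h hh A hA e he hee heA heP S τ q hq hτ htr
  have hmem : ∀ a : A, a ∈ hAs ↔ (a : Matrix n n ℚ) ∈ h := by
    intro a
    rw [hAsdef]
    rfl
  have hmap : hAs.map A.val.toLinearMap = h := by
    apply le_antisymm
    · rintro _ ⟨a, ha, rfl⟩
      exact (hmem a).1 ha
    · intro a ha
      exact ⟨⟨a, hhA a ha⟩, (hmem _).2 ha, rfl⟩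
  have hcomA : ∀ j, (com hAs j).map A.val.toLinearMap = com h j := by
    intro j
    rw [← (hC A hAs).2.2.2 (Matrix n n ℚ) A.val j, hmap]
  have hcomq : ∀ j, com hb j = (com hAs j).map q.toLinearMap := by
    intro j
    rw [hbdef]
    exact (hC A hAs).2.2.2 S q j
  have comA : com hAs (κ + 1) ≤ hAs := by
    intro a ha
    rw [hmem]
    apply hcom
    rw [← hcomA]
    exact ⟨a, ha, rfl⟩
  have comb : com hb (κ + 1) ≤ hb := by
    rw [hcomq, hbdef]
    exact Submodule.map_mono comA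
  have adj : Algebra.adjoin ℚ (hb : Set S) = ⊤ := by
    have h1 : Algebra.adjoin ℚ (hAs : Set A) = ⊤ := by
      subst hA
      have h2 : (hAs : Set (Algebra.adjoin ℚ (h : Set (Matrix n n ℚ)))) =
          (Subtype.val : Algebra.adjoin ℚ (h : Set (Matrix n n ℚ)) → Matrix n n ℚ) ⁻¹'
            (h : Set (Matrix n n ℚ)) := by
        ext a
        exact hmem a
      rw [h2]
      exact Algebra.adjoin_adjoin_coe_preimage
    have h2 : (hb : Set S) = q '' (hAs : Set A) := by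
      rw [hbdef]
      rfl
    rw [h2, Algebra.adjoin_image, h1, Algebra.map_top, AlgHom.range_eq_top]
    exact hq
  -- the point
  obtain ⟨xb, hxb⟩ : ∃ xb : S, xb = q ⟨w, hhA w hw⟩ := ⟨_, rfl⟩
  have hbmem : ∀ (a : Matrix n n ℚ) (ha : a ∈ h), q ⟨a, hhA a ha⟩ ∈ hb := by
    intro a ha
    rw [hbdef]
    exact ⟨⟨a, hhA a ha⟩, (hmem _).2 ha, rfl⟩
  have nil : ∀ (i : Fin m) (t : ℚ), IsNilpotent (xb + t • q ⟨z i, hhA _ (hz i)⟩) := by
    intro i t
    have h1 := line_nil (e * w) (e * z i) (fun r hr => by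
      have h2 := hnil i r hr
      rwa [mul_add, mul_smul_comm] at h2) t
    obtain ⟨k, hk⟩ := h1
    have h2 : ((⟨e, he⟩ : A) * (⟨w, hhA w hw⟩ + t • ⟨z i, hhA _ (hz i)⟩)) ^ k = 0 := by
      refine Subtype.ext ?_
      change (e * (w + t • z i)) ^ k = 0
      rw [mul_add, mul_smul_comm]
      exact hk
    refine ⟨k, ?_⟩
    have h3 := congrArg q h2
    rw [map_pow, map_mul, hqe, one_mul, map_add, map_smul, map_zero, ← hxb] at h3
    exact h3
  have hs : ∀ i : Fin m, ∃ s, q ⟨z i, hhA _ (hz i)⟩ = s * xb - xb * s := by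
    intro i
    refine hA' S τ hτ xb _ (nil i) ?_
    rw [hxb]
    exact ext_q hR A e he hee heA S τ q hq hτ htr hqe w (z i) (hhA w hw) (hhA _ (hz i)) (hrk i)
  choose s hs using hs
  have hall : ∀ (a : Matrix n n ℚ) (ha : a ∈ h), ∃ r, q ⟨a, hhA a ha⟩ = r * xb - xb * r := by
    intro a ha
    obtain ⟨c, hc⟩ := (Submodule.mem_span_range_iff_exists_fun ℚ).1 (hzs ha)
    have h1 : (⟨a, hhA a ha⟩ : A) = ∑ i, c i • (⟨z i, hhA _ (hz i)⟩ : A) := by
      refine Subtype.ext ?_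
      rw [AddSubmonoidClass.coe_finsetSum]
      exact hc.symm
    refine ⟨∑ i, c i • s i, ?_⟩
    rw [h1, map_sum, Finset.sum_mul, Finset.mul_sum, ← Finset.sum_sub_distrib]
    refine Finset.sum_congr rfl fun i _ => ?_
    rw [map_smul, hs, smul_mul_assoc, mul_smul_comm, ← smul_sub]
  have xnil : IsNilpotent xb := by
    by_cases hm : m = 0
    · subst hm
      have h1 : w = 0 := by
        have h2 := hzs hw
        rw [Set.range_eq_empty, Submodule.span_empty, Submodule.mem_bot] at h2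
        exact h2
      refine ⟨1, ?_⟩
      rw [pow_one, hxb]
      have h2 : (⟨w, hhA w hw⟩ : A) = 0 := Subtype.ext h1
      rw [h2, map_zero]
    · have h1 := nil ⟨0, Nat.pos_of_ne_zero hm⟩ 0
      rwa [zero_smul, add_zero] at h1
  -- the space `T`
  refine ⟨{ carrier := {a | ∃ (ha : a ∈ h) (c : ℚ), q ⟨a, hhA a ha⟩ = c • xb}
            add_mem' := ?_
            zero_mem' := ?_
            smul_mem' := ?_ }, ?_, ?_, ?_, ?_⟩
  · rintro a b ⟨ha, c, hc⟩ ⟨hb', d, hd⟩
    refine ⟨h.add_mem ha hb', c + d, ?_⟩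
    rw [add_smul, ← hc, ← hd, ← map_add]
    rfl
  · refine ⟨h.zero_mem, 0, ?_⟩
    rw [zero_smul]
    exact map_zero q
  · rintro r a ⟨ha, c, hc⟩
    refine ⟨h.smul_mem r ha, r * c, ?_⟩
    rw [mul_smul, ← hc, ← map_smul]
    rfl
  · rintro a ⟨ha, -⟩
    exact ha
  · exact ⟨hw, 1, by rw [one_smul, hxb]⟩
  · rintro a ⟨ha, c, hc⟩
    refine nil_of_tr _ fun k hk => ?_
    have h1 : IsNilpotent (q ⟨a, hhA a ha⟩ ^ k) := by
      rw [hc]
      have h2 : IsNilpotent (c • xb) := xnil.smul c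
      exact h2.pow_of_pos hk.ne'
    have h2 := hτ.nil _ h1
    rw [← map_pow, htr] at h2
    have h3 : (e * a) ^ k = e * a ^ k := by
      have h4 : Commute e a := heA a (hhA a ha)
      rw [h4.mul_pow]
      congr 1
      have h5 : IsIdempotentElem e := hee
      exact h5.pow_eq (by omega)
    rw [h3]
    exact h2
  · intro Y hY
    obtain ⟨r, hr⟩ := hall Y hY
    obtain ⟨l, hl, hl2⟩ := hB S τ hτ κ hb comb adj gr xb (by rw [hxb]; exact hbmem w hw)
      (q ⟨Y, hhA Y hY⟩) (hbmem Y hY) r hr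
    rw [hcomq] at hl
    obtain ⟨l', hl', rfl⟩ := hl
    have hl'' : (l' : Matrix n n ℚ) ∈ com h κ := by
      rw [← hcomA]
      exact ⟨l', hl', rfl⟩
    have hlw : (l' : Matrix n n ℚ) * w - w * l' ∈ h := by
      apply hcom
      have h1 : w * (l' : Matrix n n ℚ) - l' * w ∈ com h (κ + 1) :=
        Submodule.subset_span ⟨w, hw, l', hl'', rfl⟩
      have h2 := Submodule.neg_mem _ h1
      rwa [neg_sub] at h2
    refine ⟨Y - ((l' : Matrix n n ℚ) * w - w * l'), ⟨h.sub_mem hY hlw, 0, ?_⟩, l', hl'', by abel⟩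
    rw [zero_smul]
    have h1 : (⟨Y - ((l' : Matrix n n ℚ) * w - w * l'), hhA _ (h.sub_mem hY hlw)⟩ : A) =
        ⟨Y, hhA Y hY⟩ - (l' * ⟨w, hhA w hw⟩ - ⟨w, hhA w hw⟩ * l') := rfl
    rw [h1, map_sub, map_sub, map_mul, map_mul, hl2, ← hxb]
    exact sub_self _

end Pool.Agent.Helper56Gr
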