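import Pool.Agent.Helper69K1.Gr.Stm

/-! Lemmas for piece N of project GR (helper69): traces of powers, lines of nilpotent matrices. -/

set_option autoImplicit false

namespace Pool.Agent.Helper56Gr

open Module Polynomial Pool.Agent.Helper69K1 Pool.Agent.Helper69K1.Gr

variable {n : Type} [Fintype n] [DecidableEq n]

/-- A matrix whose powers have trace zero is nilpotent. -/
theorem nil_of_tr (M : Matrix n n ℚ) (h : ∀ m : ℕ, 0 < m → (M ^ m).trace = 0) :
    IsNilpotent M := by
  have hint : IsIntegral ℚ M := Algebra.IsIntegral.isIntegral M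
  have hp0 : minpoly ℚ M ≠ 0 := minpoly.ne_zero hint
  obtain ⟨g, hg, hg0⟩ := Polynomial.exists_eq_pow_rootMultiplicity_mul_and_not_dvd
    (minpoly ℚ M) hp0 0
  set a := (minpoly ℚ M).rootMultiplicity 0 with ha
  rw [map_zero, sub_zero] at hg hg0
  have hcop : IsCoprime ((X : ℚ[X]) ^ (a + 1)) g := by
    refine IsCoprime.pow_left ?_
    exact (Polynomial.irreducible_X.coprime_iff_not_dvd).2 hg0
  obtain ⟨u, v, huv⟩ := hcop
  have hMg : M ^ a * aeval M g = 0 := by
    have h1 := minpoly.aeval ℚ M
    rw [hg, map_mul, map_pow, aeval_X] at h1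
    exact h1
  have hone : aeval M u * M ^ (a + 1) + aeval M v * aeval M g = 1 := by
    have h1 := congrArg (aeval M) huv
    rw [map_add, map_mul, map_mul, map_pow, aeval_X, map_one] at h1
    exact h1
  have hcm : ∀ r s : ℚ[X], aeval M r * aeval M s = aeval M s * aeval M r := fun r s => by
    rw [← map_mul, mul_comm, map_mul]
  have hcM : ∀ (r : ℚ[X]) (k : ℕ), aeval M r * M ^ k = M ^ k * aeval M r := fun r k => by
    have := hcm r (X ^ k)
    rwa [map_pow, aeval_X] at this
  set f := aeval M u * M ^ (a + 1) with hf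
  have hfg : f * (aeval M v * aeval M g) = 0 := by
    have e1 : f * (aeval M v * aeval M g) = aeval M u * M * aeval M v * (M ^ a * aeval M g) := by
      rw [hf, pow_succ']
      have e2 : M ^ a * (aeval M v * aeval M g) = aeval M v * (M ^ a * aeval M g) := by
        rw [← mul_assoc, ← hcM, mul_assoc]
      simp only [mul_assoc]
      rw [e2]
    rw [e1, hMg, mul_zero]
  have hidem : f * f = f := by
    have h1 : f * 1 = f * f + f * (aeval M v * aeval M g) := by rw [← hone, mul_add]
    rw [hfg, add_zero, mul_one] at h1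
    exact h1.symm
  have htr : f.trace = 0 := by
    have h1 : f = ∑ i ∈ Finset.range (u.natDegree + 1), u.coeff i • M ^ (i + (a + 1)) := by
      rw [hf, aeval_eq_sum_range, Finset.sum_mul]
      refine Finset.sum_congr rfl fun i _ => ?_
      rw [smul_mul_assoc, ← pow_add]
    rw [h1, Matrix.trace_sum]
    refine Finset.sum_eq_zero fun i _ => ?_
    rw [Matrix.trace_smul, h _ (by omega), smul_zero]
  have hf0 : f = 0 := by
    have h1 : IsIdempotentElem (Matrix.toLin' f) := by
      change Matrix.toLin' f * Matrix.toLin' f = Matrix.toLin' f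
      have := Matrix.toLin'_mul f f
      rw [hidem] at this
      exact this.symm
    have h2 : LinearMap.trace ℚ _ (Matrix.toLin' f) = 0 := by
      rw [Matrix.trace_toLin'_eq, htr]
    have h3 := LinearMap.IsIdempotentElem.eq_zero_of_trace_eq_zero h1 h2
    exact Matrix.toLin'.injective (by rw [h3, map_zero])
  refine ⟨a, ?_⟩
  have h1 : M ^ a * 1 = M ^ a * f + M ^ a * (aeval M v * aeval M g) := by rw [← hone, mul_add]
  have e2 : M ^ a * (aeval M v * aeval M g) = aeval M v * (M ^ a * aeval M g) := by
    rw [← mul_assoc, ← hcM, mul_assoc]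
  rw [mul_one, hf0, mul_zero, e2, hMg, mul_zero, add_zero] at h1
  exact h1

theorem pow_card {M : Matrix n n ℚ} (h : IsNilpotent M) : M ^ Fintype.card n = 0 := by
  obtain ⟨k, hk⟩ := h
  refine Matrix.toLin'.injective ?_
  rw [map_zero, Matrix.toLin'_pow]
  refine LinearMap.ext fun v => ?_
  rw [LinearMap.zero_apply]
  refine mem_ker_of_pow (d := Fintype.card n) (k := k) (by simp) ?_
  rw [← Matrix.toLin'_pow, hk, map_zero, LinearMap.zero_apply]

/-- A line of matrices with enough nilpotent elements. -/
theorem line_nil (a b : Matrix n n ℚ)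
    (h : ∀ t : ℕ, t ≤ Fintype.card n → IsNilpotent (a + (t : ℚ) • b)) (t : ℚ) :
    IsNilpotent (a + t • b) := by
  obtain ⟨c, -, hc⟩ := pow_expand a b (Fintype.card n)
  refine ⟨Fintype.card n, ?_⟩
  ext k l
  set p : ℚ[X] := ∑ i ∈ Finset.range (Fintype.card n + 1), Polynomial.monomial i (c i k l) with hp
  have h1 : ∀ s, p.eval s = ((a + s • b) ^ Fintype.card n) k l := by
    intro s
    rw [hc, Matrix.sum_apply, hp, Polynomial.eval_finsetSum]
    refine Finset.sum_congr rfl fun i _ => ?_
    rw [Matrix.smul_apply, Polynomial.eval_monomial, smul_eq_mul, mul_comm]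
  have h2 : p = 0 := by
    refine Polynomial.eq_zero_of_natDegree_lt_card_of_eval_eq_zero' p
      ((Finset.range (Fintype.card n + 1)).image (fun s : ℕ => (s : ℚ))) ?_ ?_
    · intro s hs
      obtain ⟨r, hr, rfl⟩ := Finset.mem_image.1 hs
      rw [h1, pow_card (h r (by have := Finset.mem_range.1 hr; omega))]
      rfl
    · rw [Finset.card_image_of_injective _ Nat.cast_injective, Finset.card_range]
      refine lt_of_le_of_lt (Polynomial.natDegree_sum_le_of_forall_le (n := Fintype.card n) _ _ ?_)
        (Nat.lt_succ_self _)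
      intro i hi
      exact (Polynomial.natDegree_monomial_le _).trans (by have := Finset.mem_range.1 hi; omega)
  rw [← h1, h2, Polynomial.eval_zero]
  rfl

end Pool.Agent.Helper56Gr
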